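import Pool.Agent.SP36.Rounds

/-!
# The spread lemma for one letter

`rounds` with `V = ZMod 3 × Fin m`, `card V = 3 m`, `v l = (a, l)` for `l < m`. The set of the `r` with `Prod.fst ∘ r ∈ X` has
`X.card * m ^ N` elements (`Equiv.arrowProdEquivProdArrow`), and for them no `b ∈ L` has `r i = v l` for some `l` at every `i ∈ b`.
`(3 m) ^ N = 3 ^ N * m ^ N`.
-/

set_option autoImplicit false

namespace Pool.Agent.SP36

open Finset

theorem spread {α : Type} [Fintype α] [DecidableEq α] (m : ℕ) (hm : 1 ≤ m)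
    (L : Finset (Finset α)) (hL : L.Nonempty) (hc : ∀ B ∈ L, B.card < 2 ^ m)
    (hsp : ∀ J : Finset α, (L.filter (fun B => J ⊆ B)).card * (48 * m) ^ J.card ≤ L.card)
    (a : ZMod 3) (X : Finset (α → ZMod 3)) (hX : ∀ x ∈ X, ¬ ∃ B ∈ L, ∀ i ∈ B, x i = a) :
    6 * X.card ≤ 3 ^ Fintype.card α := by
  have : NeZero m := ⟨by omega⟩
  have hV : Fintype.card (ZMod 3 × Fin m) = 3 * m := by
    rw [Fintype.card_prod, ZMod.card, Fintype.card_fin]
  obtain ⟨X', hX'⟩ : ∃ X' : Finset (α → ZMod 3 × Fin m),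
      X' = univ.filter (fun r => (fun i => (r i).1) ∈ X) := ⟨_, rfl⟩
  have h1 := rounds (fun l : ℕ => ((a, Fin.ofNat m l) : ZMod 3 × Fin m)) m
    (by
      intro l hl l' hl' h
      have h2 := congrArg (fun z : ZMod 3 × Fin m => (z.2 : ℕ)) h
      simpa [Fin.ofNat, Nat.mod_eq_of_lt hl, Nat.mod_eq_of_lt hl'] using h2)
    L hL hc
    (by
      intro J
      rw [hV, show 16 * (3 * m) = 48 * m by ring]
      exact hsp J)
    X'
    (by
      intro r hr hb
      rw [hX', mem_filter] at hr
      obtain ⟨b, hb, hi⟩ := hb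
      refine hX _ hr.2 ⟨b, hb, fun i hib => ?_⟩
      obtain ⟨l, -, hl⟩ := hi i hib
      rw [hl])
  have h2 : X.card * m ^ Fintype.card α ≤ X'.card := by
    have h3 : (X ×ˢ (univ : Finset (α → Fin m))).card = X.card * m ^ Fintype.card α := by
      rw [card_product, card_univ, Fintype.card_fun, Fintype.card_fin]
    rw [← h3]
    refine card_le_card_of_injOn (fun z => fun i => (z.1 i, z.2 i)) ?_ ?_
    · intro z hz
      have hz := mem_product.1 (mem_coe.1 hz)
      rw [mem_coe, hX', mem_filter]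
      exact ⟨mem_univ _, hz.1⟩
    · intro z _ z' _ h
      refine Prod.ext (funext fun i => ?_) (funext fun i => ?_)
      · exact congrArg Prod.fst (congrFun h i)
      · exact congrArg Prod.snd (congrFun h i)
  rw [hV, mul_pow] at h1
  have h4 : 6 * X.card * m ^ Fintype.card α ≤ 3 ^ Fintype.card α * m ^ Fintype.card α := by
    calc 6 * X.card * m ^ Fintype.card α = 6 * (X.card * m ^ Fintype.card α) := by ring
      _ ≤ 6 * X'.card := Nat.mul_le_mul_left 6 h2
      _ ≤ 3 ^ Fintype.card α * m ^ Fintype.card α := h1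
  exact Nat.le_of_mul_le_mul_right h4 (pow_pos (by omega) _)

end Pool.Agent.SP36
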