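import Pool.Agent.AT36.Kernel
import Pool.Agent.SP36.Spread

/-!
# One block

As `Pool/Agent/AT36/Block.lean`, with `N = 100 m s`, `R = 48 m`, `spread` instead of `moment`.
`N + 1 - s > 96 m s` and `(96 m s) ^ s = s ^ s * (2 ^ s * (48 m) ^ s)`.
-/

set_option autoImplicit false

namespace Pool.Agent.SP36

open Finset

theorem block {α H : Type} [Fintype α] [DecidableEq α] [AddCommGroup H] [Fintype H] (v : α → H)
    (s m : ℕ) (hs : 1 ≤ s) (hm : s < 2 ^ m) (hH : Fintype.card H ≤ 2 ^ s)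
    (hN : Fintype.card α = 100 * m * s) (B : Finset (α → ZMod 3))
    (hB : ∀ x ∈ B, ¬ ∃ D : Fin 3 → Finset α,
      (∀ a, (D a).Nonempty) ∧ (∀ a : Fin 3, ∀ i ∈ D a, x i = ((a : ℕ) : ZMod 3)) ∧
      ∀ a b, ∑ i ∈ D a, v i = ∑ i ∈ D b, v i) :
    (B.card : ℝ) ≤ 3 ^ (100 * m * s) / 2 := by
  classical
  have hm1 : 1 ≤ m := by
    rcases Nat.eq_zero_or_pos m with h | h
    · rw [h, pow_zero] at hm
      omega
    · exact h
  have hms : s ≤ m * s := Nat.le_mul_of_pos_left s hm1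
  have h1 : (100 * m * s + 1 - s) ^ s ≤ s.factorial * (100 * m * s).choose s := by
    rw [← Nat.descFactorial_eq_factorial_mul_choose]
    exact Nat.pow_sub_le_descFactorial _ _
  have h2 : (96 * m * s) ^ s < (100 * m * s + 1 - s) ^ s := by
    apply Nat.pow_lt_pow_left _ (by omega)
    have e1 : 96 * m * s = 96 * (m * s) := by ring
    have e2 : 100 * m * s = 100 * (m * s) := by ring
    rw [e1, e2]
    omega
  have h3 : s.factorial ≤ s ^ s := Nat.factorial_le_pow s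
  have h4 : s ^ s * (Fintype.card H * (48 * m) ^ s) < s ^ s * (100 * m * s).choose s := by
    calc s ^ s * (Fintype.card H * (48 * m) ^ s) ≤ s ^ s * (2 ^ s * (48 * m) ^ s) :=
          Nat.mul_le_mul_left _ (Nat.mul_le_mul_right _ hH)
      _ = (96 * m * s) ^ s := by
          rw [← mul_pow, ← mul_pow]
          congr 1
          ring
      _ < _ := h2
      _ ≤ _ := h1
      _ ≤ _ := Nat.mul_le_mul_right _ h3
  have h5 : Fintype.card H * (48 * m) ^ s < (100 * m * s).choose s :=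
    lt_of_mul_lt_mul_left h4 (Nat.zero_le _)
  have h6 : (univ : Finset H).card * (48 * m) ^ s <
      (powersetCard s (univ : Finset α)).card := by
    rw [card_powersetCard, card_univ, card_univ, hN]
    exact h5
  obtain ⟨y, -, hy⟩ := exists_lt_card_fiber_of_mul_lt_card_of_maps_to
    (f := fun D : Finset α => ∑ i ∈ D, v i) (fun D _ => mem_univ _) h6
  obtain ⟨K, L, t, ht1, hts, hLne, hL, hsp⟩ := AT36.kernel s (48 * m)
    ((powersetCard s (univ : Finset α)).filter fun D => ∑ i ∈ D, v i = y)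
    (fun D hD => (mem_powersetCard.1 (mem_filter.1 hD).1).2) hy
  have hsum : ∀ b ∈ L, ∑ i ∈ b, v i = y - ∑ i ∈ K, v i := by
    intro b hb
    obtain ⟨-, hd, hF⟩ := hL b hb
    have := (mem_filter.1 hF).2
    rw [sum_union hd] at this
    rw [← this]
    abel
  have hbad : ∀ a : Fin 3, 6 * (B.filter (fun x =>
      ¬ ∃ b ∈ L, ∀ i ∈ b, x i = ((a : ℕ) : ZMod 3))).card ≤ 3 ^ (100 * m * s) := by
    intro a
    have h7 := spread m hm1 L hLne (fun b hb => by rw [(hL b hb).1]; omega) hsp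
      ((a : ℕ) : ZMod 3) (B.filter (fun x => ¬ ∃ b ∈ L, ∀ i ∈ b, x i = ((a : ℕ) : ZMod 3)))
      (fun x hx => (mem_filter.1 hx).2)
    rwa [hN] at h7
  have hsub : B ⊆ (univ : Finset (Fin 3)).biUnion fun a => B.filter (fun x =>
        ¬ ∃ b ∈ L, ∀ i ∈ b, x i = ((a : ℕ) : ZMod 3)) := by
    intro x hx
    by_contra hno
    have h9 : ∀ a : Fin 3, ∃ b ∈ L, ∀ i ∈ b, x i = ((a : ℕ) : ZMod 3) := by
      intro a
      by_contra hcon
      exact hno (mem_biUnion.2 ⟨a, mem_univ _, mem_filter.2 ⟨hx, hcon⟩⟩)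
    choose D hD hDx using h9
    apply hB x hx
    refine ⟨D, fun a => ?_, hDx, fun a b => ?_⟩
    · rw [← card_pos, (hL (D a) (hD a)).1]
      exact ht1
    · rw [hsum _ (hD a), hsum _ (hD b)]
  have hc := (card_le_card hsub).trans card_biUnion_le
  have hc' : 6 * B.card ≤ 3 * 3 ^ (100 * m * s) := by
    calc 6 * B.card ≤ 6 * ∑ a : Fin 3, (B.filter (fun x =>
          ¬ ∃ b ∈ L, ∀ i ∈ b, x i = ((a : ℕ) : ZMod 3))).card := Nat.mul_le_mul_left _ hc
      _ = ∑ a : Fin 3, 6 * (B.filter (fun x =>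
          ¬ ∃ b ∈ L, ∀ i ∈ b, x i = ((a : ℕ) : ZMod 3))).card := by rw [mul_sum]
      _ ≤ ∑ _a : Fin 3, 3 ^ (100 * m * s) := sum_le_sum fun a _ => hbad a
      _ = 3 * 3 ^ (100 * m * s) := by
          rw [sum_const, card_univ, Fintype.card_fin, smul_eq_mul]
  have hcR : (6 : ℝ) * B.card ≤ 3 * 3 ^ (100 * m * s) := by exact_mod_cast hc'
  linarith

end Pool.Agent.SP36
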