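import Mathlib

set_option autoImplicit false

namespace Pool.Agent.SP36

open Finset

/-- `r` with the value `v` on `T`. -/
def upd26 {α V : Type} [DecidableEq α] (r : α → V) (T : Finset α) (v : V) : α → V :=
  fun i => if i ∈ T then v else r i

theorem off26 {α V : Type} [Fintype α] [DecidableEq α] [Fintype V] [DecidableEq V]
    (r' : α → V) (t : Finset α) :
    ((univ : Finset (α → V)).filter (fun r => ∀ i, i ∉ t → r i = r' i)).card =
      Fintype.card V ^ t.card := by
  have h1 : (univ : Finset (α → V)).filter (fun r => ∀ i, i ∉ t → r i = r' i) =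
      Fintype.piFinset (fun i => if i ∈ t then (univ : Finset V) else {r' i}) := by
    ext r
    simp only [mem_filter, mem_univ, true_and, Fintype.mem_piFinset]
    constructor
    · intro h i
      by_cases hi : i ∈ t
      · rw [if_pos hi]; exact mem_univ _
      · rw [if_neg hi, mem_singleton]; exact h i hi
    · intro h i hi
      have := h i
      rw [if_neg hi, mem_singleton] at this
      exact this
  have h2 : ∀ i : α, (if i ∈ t then (univ : Finset V) else {r' i}).card =
      if i ∈ t then Fintype.card V else 1 := by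
    intro i
    split_ifs
    · exact card_univ
    · exact card_singleton _
  rw [h1, Fintype.card_piFinset, prod_congr rfl (fun i _ => h2 i),
    Finset.prod_ite_mem univ t (fun _ => Fintype.card V), univ_inter, prod_const]

theorem round26 {α V : Type} [Fintype α] [DecidableEq α] [Fintype V] [DecidableEq V] (v : V)
    (L : Finset (Finset α)) (s k : ℕ)
    (hsp : ∀ J : Finset α,
      (L.filter (fun b => J ⊆ b)).card * (16 * Fintype.card V) ^ J.card ≤ L.card)
    (F T : (α → V) → Finset α → Finset α) (G : (α → V) → Finset (Finset α))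
    (hGL : ∀ r, G r ⊆ L)
    (hFs : ∀ r, ∀ b ∈ G r, (F r b).card ≤ s)
    (hTb : ∀ r, ∀ b ∈ G r, T r b ⊆ b)
    (hT1 : ∀ r, ∀ b ∈ G r, ∃ b' ∈ G r, ∀ i ∈ F r b', r i = v ∨ i ∈ T r b)
    (hT3 : ∀ r, ∀ b ∈ G r, ∀ b' ∈ G r, (∀ i ∈ F r b', r i = v ∨ i ∈ T r b) → T r b ⊆ F r b')
    (hloc : ∀ r, ∀ b ∈ G r, F (upd26 r (T r b) v) = F r ∧ G (upd26 r (T r b) v) = G r) :
    (∑ r, ((G r).filter (fun b => (T r b).card = k)).card) * 16 ^ k ≤
      Fintype.card V ^ Fintype.card α * s.choose k * L.card := by
  classical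
  have hM : 0 < Fintype.card V := Fintype.card_pos_iff.mpr ⟨v⟩
  have hC : ∀ r' : α → V, ∃ C : Finset α, C.card ≤ s ∧
      ((∃ b ∈ G r', ∀ i ∈ F r' b, r' i = v) → ∃ b ∈ G r', (∀ i ∈ F r' b, r' i = v) ∧ C = F r' b) := by
    intro r'
    by_cases h : ∃ b ∈ G r', ∀ i ∈ F r' b, r' i = v
    · obtain ⟨b, hb, hb'⟩ := h
      exact ⟨F r' b, hFs r' b hb, fun _ => ⟨b, hb, hb', rfl⟩⟩
    · exact ⟨∅, by simp, fun h' => absurd h' h⟩
  choose C hCs hCb using hC
  obtain ⟨D, hD⟩ : ∃ D : (α → V) → Finset α → Finset ((_ : α → V) × Finset α),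
      D = fun r' t => ((univ : Finset (α → V)).filter (fun r => ∀ i, i ∉ t → r i = r' i)).sigma
        (fun _ => L.filter (fun b => t ⊆ b)) := ⟨_, rfl⟩
  have hDc : ∀ r' t, t.card = k → (D r' t).card * (16 * Fintype.card V) ^ k ≤
      Fintype.card V ^ k * L.card := by
    intro r' t ht
    rw [hD]
    simp only
    rw [card_sigma, sum_const, smul_eq_mul, off26, ht, mul_assoc]
    have := hsp t
    rw [ht] at this
    exact Nat.mul_le_mul_left _ this
  have hsub : (univ : Finset (α → V)).sigma (fun r => (G r).filter (fun b => (T r b).card = k)) ⊆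
      (univ : Finset (α → V)).biUnion (fun r' => (powersetCard k (C r')).biUnion (fun t => D r' t)) := by
    rintro ⟨r, b⟩ h
    rw [mem_sigma, mem_filter] at h
    obtain ⟨_, hb, hk⟩ := h
    simp only at hb hk
    obtain ⟨t, ht⟩ : ∃ t, t = T r b := ⟨_, rfl⟩
    obtain ⟨r', hr'⟩ : ∃ r', r' = upd26 r t v := ⟨_, rfl⟩
    obtain ⟨hF, hG⟩ := hloc r b hb
    rw [← ht, ← hr'] at hF hG
    have hr1 : ∀ i, r' i = v ↔ (r i = v ∨ i ∈ t) := by
      intro i
      rw [hr']
      unfold upd26
      by_cases hi : i ∈ t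
      · simp [hi]
      · simp [hi]
    obtain ⟨b1, hb1, hb1'⟩ := hT1 r b hb
    obtain ⟨b2, hb2, hb2', hCe⟩ := hCb r' ⟨b1, by rw [hG]; exact hb1, fun i hi => by
      rw [hF] at hi
      rw [hr1, ht]
      exact hb1' i hi⟩
    rw [hG] at hb2
    rw [hF] at hb2' hCe
    have htC : t ⊆ C r' := by
      rw [hCe, ht]
      apply hT3 r b hb b2 hb2
      intro i hi
      rw [← ht, ← hr1]
      exact hb2' i hi
    rw [mem_biUnion]
    refine ⟨r', mem_univ _, ?_⟩
    rw [mem_biUnion]
    refine ⟨t, by rw [mem_powersetCard]; exact ⟨htC, by rw [ht]; exact hk⟩, ?_⟩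
    rw [hD]
    simp only [mem_sigma, mem_filter, mem_univ, true_and]
    refine ⟨?_, hGL r hb, by rw [ht]; exact hTb r b hb⟩
    intro i hi
    rw [hr']
    unfold upd26
    rw [if_neg hi]
  have h1 := card_le_card hsub
  rw [card_sigma] at h1
  have h2 : (∑ r, ((G r).filter (fun b => (T r b).card = k)).card) ≤
      ∑ r' : α → V, ∑ t ∈ powersetCard k (C r'), (D r' t).card :=
    h1.trans (card_biUnion_le.trans (sum_le_sum fun r' _ => card_biUnion_le))
  have h3 : (∑ r, ((G r).filter (fun b => (T r b).card = k)).card) * (16 * Fintype.card V) ^ k ≤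
      ∑ r' : α → V, ∑ t ∈ powersetCard k (C r'), Fintype.card V ^ k * L.card := by
    refine (Nat.mul_le_mul_right _ h2).trans ?_
    rw [sum_mul]
    apply sum_le_sum
    intro r' _
    rw [sum_mul]
    apply sum_le_sum
    intro t ht
    rw [mem_powersetCard] at ht
    exact hDc r' t ht.2
  have h4 : ∑ r' : α → V, ∑ t ∈ powersetCard k (C r'), Fintype.card V ^ k * L.card ≤
      Fintype.card V ^ Fintype.card α * (s.choose k * (Fintype.card V ^ k * L.card)) := by
    have h5 : ∀ r' : α → V, ∑ t ∈ powersetCard k (C r'), Fintype.card V ^ k * L.card ≤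
        s.choose k * (Fintype.card V ^ k * L.card) := by
      intro r'
      rw [sum_const, card_powersetCard, smul_eq_mul]
      exact Nat.mul_le_mul_right _ (Nat.choose_le_choose k (hCs r'))
    refine (sum_le_sum fun r' _ => h5 r').trans ?_
    rw [sum_const, card_univ, Fintype.card_fun, smul_eq_mul]
  have h6 := h3.trans h4
  rw [mul_pow] at h6
  have h7 : Fintype.card V ^ k *
      ((∑ r, ((G r).filter (fun b => (T r b).card = k)).card) * 16 ^ k) ≤
      Fintype.card V ^ k * (Fintype.card V ^ Fintype.card α * s.choose k * L.card) := by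
    calc Fintype.card V ^ k *
        ((∑ r, ((G r).filter (fun b => (T r b).card = k)).card) * 16 ^ k)
        = (∑ r, ((G r).filter (fun b => (T r b).card = k)).card) *
          (16 ^ k * Fintype.card V ^ k) := by ring
      _ ≤ _ := h6
      _ = _ := by ring
  exact Nat.le_of_mul_le_mul_left h7 (pow_pos hM k)

end Pool.Agent.SP36
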