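import Mathlib
import Pool.Agent.SP36.RoundS26

/-!
# One round of the spread lemma: counting pairs with a large minimal fragment

`M = card V`, `W = {i | r i = v}`, `M ^ N = card (α → V)`. Let `P` be the set of pairs `(r, b)`, `b ∈ G r`, `(T r b).card = k`.
For `r' : α → V` let `C r' = F r' b''` for some `b'' ∈ G r'` with `F r' b'' ⊆ {i | r' i = v}` if there is one, else `∅`; `(C r').card ≤ s`.
For `(r, b) ∈ P` put `r' = upd r (T r b) v`. By `hloc`, `F r' = F r`, `G r' = G r`; the `b'` of `hT1` has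
`F r' b' ⊆ {r' = v}`, so `C r' = F r b''` with `b'' ∈ G r` and `r i = v ∨ i ∈ T r b` on it; by `hT3`, `T r b ⊆ C r'`.
So `(r, b) ↦ (r', T r b, r, b)` maps `P` injectively into the tuples with `r' : α → V`, `T ∈ powersetCard k (C r')`,
`r i = r' i` for `i ∉ T` (`M ^ k` such `r`), `b ∈ L`, `T ⊆ b`; hence
`P.card * (16 M) ^ k ≤ M ^ N * choose s k * M ^ k * L.card`; cancel `M ^ k` (`M > 0` because of `v`).
-/

set_option autoImplicit false

namespace Pool.Agent.SP36

open Finset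

/-- `r` with the value `v` on `T`. -/
def upd {α V : Type} [DecidableEq α] (r : α → V) (T : Finset α) (v : V) : α → V :=
  fun i => if i ∈ T then v else r i

theorem round {α V : Type} [Fintype α] [DecidableEq α] [Fintype V] [DecidableEq V] (v : V)
    (L : Finset (Finset α)) (s k : ℕ)
    (hsp : ∀ J : Finset α,
      (L.filter (fun b => J ⊆ b)).card * (16 * Fintype.card V) ^ J.card ≤ L.card)
    (F T : (α → V) → Finset α → Finset α) (G : (α → V) → Finset (Finset α))
    (hGL : ∀ r, G r ⊆ L)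
    (hFs : ∀ r, ∀ b ∈ G r, (F r b).card ≤ s)
    (hTb : ∀ r, ∀ b ∈ G r, T r b ⊆ b)
    (hT1 : ∀ r, ∀ b ∈ G r, ∃ b' ∈ G r, ∀ i ∈ F r b', r i = v ∨ i ∈ T r b)
    (hT3 : ∀ r, ∀ b ∈ G r, ∀ b' ∈ G r, (∀ i ∈ F r b', r i = v ∨ i ∈ T r b) → T r b ⊆ F r b')
    (hloc : ∀ r, ∀ b ∈ G r, F (upd r (T r b) v) = F r ∧ G (upd r (T r b) v) = G r) :
    (∑ r, ((G r).filter (fun b => (T r b).card = k)).card) * 16 ^ k ≤
      Fintype.card V ^ Fintype.card α * s.choose k * L.card :=
  round26 v L s k hsp F T G hGL hFs hTb hT1 hT3 hloc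

end Pool.Agent.SP36
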