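import Pool.Agent.SP36.Round

/-!
# One round, summed over the sizes

`X = M ^ N * L.card`. By `hT1` and `hT3` every `T r b` is contained in some `F r b'`, so `(T r b).card ≤ 2 s' + 1`. Sum `round` over
`k` in `Ioc s' (2 s' + 1)`: with `S` the sum in the statement, `16 ^ (s' + 1) * S ≤ X * ∑ k, choose (2 s' + 1) k ≤ X * 2 ^ (2 s' + 1)`;
`16 ^ (s' + 1) = 4 ^ (s' + 1) * 4 * 4 ^ s'` and `2 ^ (2 s' + 1) = 2 * 4 ^ s'`.
-/

set_option autoImplicit false

namespace Pool.Agent.SP36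

open Finset

theorem round_sum {α V : Type} [Fintype α] [DecidableEq α] [Fintype V] [DecidableEq V] (v : V)
    (L : Finset (Finset α)) (s' : ℕ)
    (hsp : ∀ J : Finset α,
      (L.filter (fun b => J ⊆ b)).card * (16 * Fintype.card V) ^ J.card ≤ L.card)
    (F T : (α → V) → Finset α → Finset α) (G : (α → V) → Finset (Finset α))
    (hGL : ∀ r, G r ⊆ L)
    (hFs : ∀ r, ∀ b ∈ G r, (F r b).card ≤ 2 * s' + 1)
    (hTb : ∀ r, ∀ b ∈ G r, T r b ⊆ b)
    (hT1 : ∀ r, ∀ b ∈ G r, ∃ b' ∈ G r, ∀ i ∈ F r b', r i = v ∨ i ∈ T r b)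
    (hT3 : ∀ r, ∀ b ∈ G r, ∀ b' ∈ G r, (∀ i ∈ F r b', r i = v ∨ i ∈ T r b) → T r b ⊆ F r b')
    (hloc : ∀ r, ∀ b ∈ G r, F (upd r (T r b) v) = F r ∧ G (upd r (T r b) v) = G r) :
    2 * 4 ^ (s' + 1) * ∑ r, ((G r).filter (fun b => s' < (T r b).card)).card ≤
      Fintype.card V ^ Fintype.card α * L.card := by
  have hk : ∀ k ∈ Ioc s' (2 * s' + 1),
      (∑ r, ((G r).filter (fun b => (T r b).card = k)).card) * 16 ^ (s' + 1) ≤
        Fintype.card V ^ Fintype.card α * L.card * (2 * s' + 1).choose k := by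
    intro k hk
    rw [mem_Ioc] at hk
    have h1 := round v L (2 * s' + 1) k hsp F T G hGL hFs hTb hT1 hT3 hloc
    have h2 : 16 ^ (s' + 1) ≤ 16 ^ k := Nat.pow_le_pow_right (by norm_num) (by omega)
    calc (∑ r, ((G r).filter (fun b => (T r b).card = k)).card) * 16 ^ (s' + 1)
        ≤ (∑ r, ((G r).filter (fun b => (T r b).card = k)).card) * 16 ^ k :=
          Nat.mul_le_mul_left _ h2
      _ ≤ Fintype.card V ^ Fintype.card α * (2 * s' + 1).choose k * L.card := h1
      _ = Fintype.card V ^ Fintype.card α * L.card * (2 * s' + 1).choose k := by ring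
  have hS : ∀ r, ((G r).filter (fun b => s' < (T r b).card)).card =
      ∑ k ∈ Ioc s' (2 * s' + 1), ((G r).filter (fun b => (T r b).card = k)).card := by
    intro r
    have h1 : ∀ b ∈ (G r).filter (fun b => s' < (T r b).card),
        (T r b).card ∈ Ioc s' (2 * s' + 1) := by
      intro b hb
      rw [mem_filter] at hb
      obtain ⟨b', hb', h2⟩ := hT1 r b hb.1
      have h3 := hT3 r b hb.1 b' hb' h2
      have h4 := card_le_card h3
      have h5 := hFs r b' hb'
      rw [mem_Ioc]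
      exact ⟨hb.2, h4.trans h5⟩
    rw [card_eq_sum_card_fiberwise h1]
    refine sum_congr rfl fun k hk => ?_
    rw [mem_Ioc] at hk
    congr 1
    ext b
    simp only [mem_filter]
    constructor
    · rintro ⟨⟨h2, h3⟩, h4⟩
      exact ⟨h2, h4⟩
    · rintro ⟨h2, h4⟩
      exact ⟨⟨h2, by omega⟩, h4⟩
  have hsum : (∑ r, ((G r).filter (fun b => s' < (T r b).card)).card) * 16 ^ (s' + 1) ≤
      Fintype.card V ^ Fintype.card α * L.card * 2 ^ (2 * s' + 1) := by
    rw [sum_congr rfl (fun r _ => hS r), sum_comm, sum_mul]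
    refine (sum_le_sum hk).trans ?_
    rw [← mul_sum]
    apply Nat.mul_le_mul_left
    rw [← Nat.sum_range_choose]
    apply sum_le_sum_of_subset
    intro k hk
    rw [mem_Ioc] at hk
    rw [mem_range]
    omega
  set S := ∑ r, ((G r).filter (fun b => s' < (T r b).card)).card with hSdef
  set X := Fintype.card V ^ Fintype.card α * L.card with hX
  have e1 : (16 : ℕ) ^ (s' + 1) = 4 ^ (s' + 1) * (4 * 4 ^ s') := by
    have : (16 : ℕ) = 4 * 4 := by norm_num
    rw [this, mul_pow, pow_succ 4 s']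
    ring
  have e2 : (2 : ℕ) ^ (2 * s' + 1) = 2 * 4 ^ s' := by
    rw [pow_succ, pow_mul]
    norm_num
    ring
  rw [e1, e2] at hsum
  have h3 : (2 * 4 ^ (s' + 1) * S) * (2 * 4 ^ s') ≤ X * (2 * 4 ^ s') := by
    calc (2 * 4 ^ (s' + 1) * S) * (2 * 4 ^ s') = S * (4 ^ (s' + 1) * (4 * 4 ^ s')) := by ring
      _ ≤ X * (2 * 4 ^ s') := hsum
  exact Nat.le_of_mul_le_mul_right h3 (by positivity)

end Pool.Agent.SP36
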