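import Pool.Agent.SP36.Stage

/-!
# All rounds

`Stage L v 0 (2 ^ m - 1) (6 * 4 ^ m)` holds with `F r b = b`, `G r = L` (the sum is `0`). By induction on `j ≤ m` with `stage_step`
(`s' = 2 ^ (m - j - 1) - 1`, `q' = 6 * 4 ^ (m - j - 1)`; `d ≤ 2 ^ d - 1` gives `hq`): `Stage L v j (2 ^ (m - j) - 1) (6 * 4 ^ (m - j))`.
For `j = m`: fragments with at most `0` elements; if `G r` is nonempty, then some member of `L` is contained in the rounds; so
`G r = ∅` for `r ∈ X`, `6 * X.card * L.card ≤ 6 * ∑ r, (L \ G r).card ≤ M ^ N * L.card`.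
-/

set_option autoImplicit false

namespace Pool.Agent.SP36

open Finset

theorem rounds {α V : Type} [Fintype α] [DecidableEq α] [Fintype V] [DecidableEq V]
    (v : ℕ → V) (m : ℕ) (hv : ∀ l < m, ∀ l' < m, v l = v l' → l = l')
    (L : Finset (Finset α)) (hL : L.Nonempty) (hc : ∀ B ∈ L, B.card < 2 ^ m)
    (hsp : ∀ J : Finset α,
      (L.filter (fun b => J ⊆ b)).card * (16 * Fintype.card V) ^ J.card ≤ L.card)
    (X : Finset (α → V)) (hX : ∀ r ∈ X, ¬ ∃ b ∈ L, ∀ i ∈ b, ∃ l < m, r i = v l) :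
    6 * X.card ≤ Fintype.card V ^ Fintype.card α := by
  have hst : ∀ j, j ≤ m → Stage L v j (2 ^ (m - j) - 1) (6 * 4 ^ (m - j)) := by
    intro j
    induction j with
    | zero =>
      intro _
      refine ⟨fun _ b => b, fun _ => L, fun _ => Finset.Subset.refl _,
        fun _ b _ => Finset.Subset.refl _, fun _ b hb => ?_, fun _ b _ i _ l hl => ?_,
        fun _ b hb => ⟨b, hb, fun i hi => Or.inl hi⟩, fun _ _ _ => ⟨rfl, rfl⟩, ?_⟩
      · have h1 := hc b hb
        rw [Nat.sub_zero]
        show b.card ≤ 2 ^ m - 1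
        omega
      · exact absurd hl (Nat.not_lt_zero _)
      · simp
    | succ j ih =>
      intro hj
      have h1 := ih (by omega)
      obtain ⟨d, hd⟩ : ∃ d, m - (j + 1) = d := ⟨_, rfl⟩
      have hd1 : m - j = d + 1 := by omega
      rw [hd]
      rw [hd1] at h1
      have h2 : 1 ≤ 2 ^ d := Nat.one_le_two_pow
      have h3 : 2 ^ (d + 1) - 1 = 2 * (2 ^ d - 1) + 1 := by
        rw [pow_succ]
        omega
      have h4 : 6 * 4 ^ (d + 1) = 4 * (6 * 4 ^ d) := by
        rw [pow_succ]
        ring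
      rw [h3, h4] at h1
      refine stage_step L v j (2 ^ d - 1) (6 * 4 ^ d) hsp ?_ ?_ h1
      · intro l hl h
        have := hv l (by omega) j (by omega) h
        omega
      · refine Nat.mul_le_mul_left 6 (Nat.pow_le_pow_right (by norm_num) ?_)
        have h5 : d < 2 ^ d := Nat.lt_two_pow_self
        omega
  obtain ⟨F, G, -, -, hF, -, hcov, -, hsum⟩ := hst m le_rfl
  rw [Nat.sub_self, pow_zero, mul_one] at hsum
  rw [Nat.sub_self, pow_zero] at hF
  have hG : ∀ r ∈ X, G r = ∅ := by
    intro r hr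
    rw [Finset.eq_empty_iff_forall_notMem]
    intro b hb
    have h1 := hF r b hb
    have h2 : F r b = ∅ := Finset.card_eq_zero.1 (Nat.le_zero.1 (by simpa using h1))
    obtain ⟨b', hb', h3⟩ := hcov r b hb
    refine hX r hr ⟨b', hb', fun i hi => ?_⟩
    rcases h3 i hi with h4 | h4
    · rw [h2] at h4
      exact absurd h4 (Finset.notMem_empty i)
    · exact h4
  have h1 : X.card * L.card ≤ ∑ r, (L \ G r).card := by
    calc X.card * L.card = ∑ r ∈ X, (L \ G r).card := by
          rw [Finset.sum_congr rfl (fun r hr => by rw [hG r hr, Finset.sdiff_empty]),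
            Finset.sum_const, smul_eq_mul]
      _ ≤ ∑ r, (L \ G r).card :=
          Finset.sum_le_sum_of_subset (Finset.subset_univ X)
  have h2 : 6 * X.card * L.card ≤ Fintype.card V ^ Fintype.card α * L.card := by
    calc 6 * X.card * L.card = 6 * (X.card * L.card) := by ring
      _ ≤ 6 * ∑ r, (L \ G r).card := Nat.mul_le_mul_left 6 h1
      _ ≤ _ := by simpa using hsum
  exact Nat.le_of_mul_le_mul_right h2 (Finset.card_pos.2 hL)

end Pool.Agent.SP36
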