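import Pool.Agent.SP36.RoundSum

/-!
# One step of the halving

Let `F`, `G` be as in `Stage L v j (2 s' + 1) (4 q')`, `W r = {i | r i = v j}`. For `b ∈ G r` let `T r b` be a set of minimal size among
the `F r b' \ W r` with `b' ∈ G r`, `F r b' \ W r ⊆ F r b` (`b' = b` is a candidate; outside `G r` put anything, `∅`). Define it as a function of
`F r`, `G r`, `W r` and `b` (choice), so that it has the locality property. New data: `F' = T`, `G' r = {b ∈ G r | (T r b).card ≤ s'}`.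
Hypotheses of `round_sum` (with `v j`): `hT1` by the definition; `hT3`: `F r b' \ W r ⊆ T r b ⊆ F r b`, by the minimality the first inclusion is
an equality, so `T r b ⊆ F r b'`; `hloc`: `r` and `upd r (T r b) (v j)` have the same sets `{r = v l}`, `l < j` (on `T r b ⊆ F r b` we have
`r i ≠ v l` and `v j ≠ v l`). Count: `L \ G' r ⊆ (L \ G r) ∪ {b ∈ G r | s' < (T r b).card}`; `q' * old ≤ X/4` and
`q' * new ≤ 6 * 4 ^ s' * new = (3/4) * (2 * 4 ^ (s' + 1) * new) ≤ (3/4) X`.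
-/

set_option autoImplicit false

namespace Pool.Agent.SP36

open Finset

/-- After `j` rounds (the coordinates with `r i = v l`, `l < j`) all but a few members `b` of `L` have a fragment `F r b` with at
most `s` elements: some member of `L` is contained in the union of the fragment and the rounds. -/
def Stage {α V : Type} [Fintype α] [DecidableEq α] [Fintype V] [DecidableEq V]
    (L : Finset (Finset α)) (v : ℕ → V) (j s q : ℕ) : Prop :=
  ∃ (F : (α → V) → Finset α → Finset α) (G : (α → V) → Finset (Finset α)),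
    (∀ r, G r ⊆ L) ∧
    (∀ r, ∀ b ∈ G r, F r b ⊆ b) ∧
    (∀ r, ∀ b ∈ G r, (F r b).card ≤ s) ∧
    (∀ r, ∀ b ∈ G r, ∀ i ∈ F r b, ∀ l < j, r i ≠ v l) ∧
    (∀ r, ∀ b ∈ G r, ∃ b' ∈ L, ∀ i ∈ b', i ∈ F r b ∨ ∃ l < j, r i = v l) ∧
    (∀ r r' : α → V, (∀ i, ∀ l < j, (r i = v l ↔ r' i = v l)) → F r = F r' ∧ G r = G r') ∧
    q * ∑ r, (L \ G r).card ≤ Fintype.card V ^ Fintype.card α * L.card

/-- A minimal fragment, as a function of the data. -/
theorem exists_sel (α : Type) [DecidableEq α] :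
    ∃ sel : (Finset α → Finset α) → Finset (Finset α) → Finset α → Finset α → Finset α,
      ∀ f g W b, b ∈ g → (∃ b' ∈ g, sel f g W b = f b' \ W) ∧ sel f g W b ⊆ f b ∧
        ∀ b' ∈ g, f b' \ W ⊆ f b → (sel f g W b).card ≤ (f b' \ W).card := by
  have h1 : ∀ (f : Finset α → Finset α) (g : Finset (Finset α)) (W b : Finset α),
      ∃ T : Finset α, b ∈ g → (∃ b' ∈ g, T = f b' \ W) ∧ T ⊆ f b ∧
        ∀ b' ∈ g, f b' \ W ⊆ f b → T.card ≤ (f b' \ W).card := by
    intro f g W b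
    by_cases hb : b ∈ g
    · obtain ⟨b0, hb0, hmin⟩ := exists_min_image (g.filter fun b' => f b' \ W ⊆ f b)
        (fun b' => (f b' \ W).card) ⟨b, mem_filter.2 ⟨hb, sdiff_subset⟩⟩
      rw [mem_filter] at hb0
      exact ⟨f b0 \ W, fun _ => ⟨⟨b0, hb0.1, rfl⟩, hb0.2,
        fun b' hb' hs => hmin b' (mem_filter.2 ⟨hb', hs⟩)⟩⟩
    · exact ⟨∅, fun h => absurd h hb⟩
  choose sel hsel using h1
  exact ⟨sel, hsel⟩

theorem stage_step {α V : Type} [Fintype α] [DecidableEq α] [Fintype V] [DecidableEq V]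
    (L : Finset (Finset α)) (v : ℕ → V) (j s' q' : ℕ)
    (hsp : ∀ J : Finset α,
      (L.filter (fun b => J ⊆ b)).card * (16 * Fintype.card V) ^ J.card ≤ L.card)
    (hv : ∀ l < j, v l ≠ v j) (hq : q' ≤ 6 * 4 ^ s') (h : Stage L v j (2 * s' + 1) (4 * q')) :
    Stage L v (j + 1) s' q' := by
  obtain ⟨F, G, h1, h2, h3, h4, h5, h6, h7⟩ := h
  obtain ⟨sel, hsel⟩ := exists_sel α
  obtain ⟨W, hW⟩ : ∃ W : (α → V) → Finset α, ∀ r, W r = univ.filter (fun i => r i = v j) :=
    ⟨_, fun _ => rfl⟩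
  have hWm : ∀ r i, i ∈ W r ↔ r i = v j := by
    intro r i
    rw [hW, mem_filter]
    exact ⟨fun h => h.2, fun h => ⟨mem_univ _, h⟩⟩
  obtain ⟨T, hT⟩ : ∃ T : (α → V) → Finset α → Finset α,
      ∀ r b, T r b = sel (F r) (G r) (W r) b := ⟨_, fun _ _ => rfl⟩
  have t1 : ∀ r, ∀ b ∈ G r, ∃ b' ∈ G r, T r b = F r b' \ W r := by
    intro r b hb
    rw [hT]
    exact (hsel (F r) (G r) (W r) b hb).1
  have t2 : ∀ r, ∀ b ∈ G r, T r b ⊆ F r b := by
    intro r b hb
    rw [hT]
    exact (hsel (F r) (G r) (W r) b hb).2.1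
  have t3 : ∀ r, ∀ b ∈ G r, ∀ b' ∈ G r, F r b' \ W r ⊆ F r b →
      (T r b).card ≤ (F r b' \ W r).card := by
    intro r b hb
    rw [hT]
    exact (hsel (F r) (G r) (W r) b hb).2.2
  have hTb : ∀ r, ∀ b ∈ G r, T r b ⊆ b := fun r b hb => (t2 r b hb).trans (h2 r b hb)
  have hT1 : ∀ r, ∀ b ∈ G r, ∃ b' ∈ G r, ∀ i ∈ F r b', r i = v j ∨ i ∈ T r b := by
    intro r b hb
    obtain ⟨b', hb', he⟩ := t1 r b hb
    refine ⟨b', hb', fun i hi => ?_⟩
    by_cases hi' : r i = v j
    · exact Or.inl hi'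
    · right
      rw [he, mem_sdiff]
      exact ⟨hi, fun h => hi' ((hWm r i).1 h)⟩
  have hT3 : ∀ r, ∀ b ∈ G r, ∀ b' ∈ G r, (∀ i ∈ F r b', r i = v j ∨ i ∈ T r b) →
      T r b ⊆ F r b' := by
    intro r b hb b' hb' hi
    have hsub : F r b' \ W r ⊆ T r b := by
      intro i hi'
      rw [mem_sdiff] at hi'
      rcases hi i hi'.1 with h8 | h8
      · exact absurd ((hWm r i).2 h8) hi'.2
      · exact h8
    have h8 := t3 r b hb b' hb' (hsub.trans (t2 r b hb))
    have h9 := eq_of_subset_of_card_le hsub h8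
    rw [← h9]
    exact sdiff_subset
  have hloc : ∀ r, ∀ b ∈ G r, F (upd r (T r b) (v j)) = F r ∧ G (upd r (T r b) (v j)) = G r := by
    intro r b hb
    apply h6
    intro i l hl
    unfold upd
    split_ifs with hi
    · constructor
      · intro h8
        exact absurd h8.symm (hv l hl)
      · intro h8
        exact absurd h8 (h4 r b hb i (t2 r b hb hi) l hl)
    · exact Iff.rfl
  have hrs := round_sum (v j) L s' hsp F T G h1 h3 hTb hT1 hT3 hloc
  refine ⟨T, fun r => (G r).filter (fun b => (T r b).card ≤ s'), ?_, ?_, ?_, ?_, ?_, ?_, ?_⟩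
  · intro r
    exact (filter_subset _ _).trans (h1 r)
  · intro r b hb
    exact hTb r b (mem_filter.1 hb).1
  · intro r b hb
    exact (mem_filter.1 hb).2
  · intro r b hb i hi l hl
    have hb' := (mem_filter.1 hb).1
    rcases Nat.lt_succ_iff_lt_or_eq.1 hl with h8 | h8
    · exact h4 r b hb' i (t2 r b hb' hi) l h8
    · rw [h8]
      obtain ⟨b', -, he⟩ := t1 r b hb'
      rw [he, mem_sdiff] at hi
      exact fun h9 => hi.2 ((hWm r i).2 h9)
  · intro r b hb
    have hb' := (mem_filter.1 hb).1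
    obtain ⟨b', hb'', hi⟩ := hT1 r b hb'
    obtain ⟨b3, hb3, h8⟩ := h5 r b' hb''
    refine ⟨b3, hb3, fun i hi3 => ?_⟩
    rcases h8 i hi3 with h9 | ⟨l, hl, h9⟩
    · rcases hi i h9 with h10 | h10
      · exact Or.inr ⟨j, Nat.lt_succ_self j, h10⟩
      · exact Or.inl h10
    · exact Or.inr ⟨l, Nat.lt_succ_of_lt hl, h9⟩
  · intro r r' hrr
    obtain ⟨e1, e2⟩ := h6 r r' (fun i l hl => hrr i l (Nat.lt_succ_of_lt hl))
    have e3 : W r = W r' := by
      ext i
      rw [hWm, hWm]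
      exact hrr i j (Nat.lt_succ_self j)
    have e4 : T r = T r' := by
      funext b
      rw [hT, hT, e1, e2, e3]
    refine ⟨e4, ?_⟩
    show (G r).filter (fun b => (T r b).card ≤ s') = (G r').filter (fun b => (T r' b).card ≤ s')
    rw [e2, e4]
  · obtain ⟨A, hA⟩ : ∃ A, A = ∑ r, (L \ G r).card := ⟨_, rfl⟩
    obtain ⟨B, hB⟩ : ∃ B, B = ∑ r, ((G r).filter (fun b => s' < (T r b).card)).card := ⟨_, rfl⟩
    obtain ⟨X, hX⟩ : ∃ X, X = Fintype.card V ^ Fintype.card α * L.card := ⟨_, rfl⟩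
    rw [← hA, ← hX] at h7
    rw [← hB, ← hX] at hrs
    rw [← hX]
    show q' * ∑ r, (L \ (G r).filter (fun b => (T r b).card ≤ s')).card ≤ X
    have hle : ∑ r, (L \ (G r).filter (fun b => (T r b).card ≤ s')).card ≤ A + B := by
      rw [hA, hB, ← sum_add_distrib]
      apply sum_le_sum
      intro r _
      refine le_trans (card_le_card ?_) (card_union_le _ _)
      intro b hb
      rw [mem_sdiff] at hb
      rw [mem_union, mem_sdiff, mem_filter]
      by_cases hbG : b ∈ G r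
      · right
        refine ⟨hbG, ?_⟩
        by_contra hcon
        exact hb.2 (mem_filter.2 ⟨hbG, not_lt.1 hcon⟩)
      · exact Or.inl ⟨hb.1, hbG⟩
    have h8 := Nat.mul_le_mul_left q' hle
    have h9 : q' * B ≤ 6 * 4 ^ s' * B := Nat.mul_le_mul_right B hq
    have e1 : 2 * 4 ^ (s' + 1) * B = 8 * (4 ^ s' * B) := by
      rw [pow_succ]
      ring
    have e2 : 6 * 4 ^ s' * B = 6 * (4 ^ s' * B) := by ring
    have e3 : 4 * q' * A = 4 * (q' * A) := by ring
    rw [e1] at hrs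
    rw [e2] at h9
    rw [e3] at h7
    rw [Nat.mul_add] at h8
    omega

end Pool.Agent.SP36
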